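import Pool.Agent.helper7.CS.SpecA

/-!
# Project cs: row LS0: the lower bound of one step without a far hypothesis
-/

set_option autoImplicit false

open Complex Metric Set Filter Topology MeasureTheory
open Pool.Agent.helper98.ILF
open HY (UD T S hd UN RM)
open PM (DD rm cx pd cr hdf)

noncomputable section

namespace CSF

/-- LS0. -/
theorem LS0 (hSTP : STP_stmt) (hKKF : KKF_stmt) (hTDF : PM.TDF_stmt) (hTIN : PM.TIN_stmt) : LS0_stmt := by
  intro Y δ ε₀ hOk V hLv a ha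
  have hDV : DD V := hLv.dd 0
  have hD1 : DD (PB Y V 1) := hLv.dd 1
  have ha1 : a ∈ PB Y V 1 := ha
  obtain ⟨-, -, hV⟩ := hTDF V hDV
  obtain ⟨-, -, h1⟩ := hTDF (PB Y V 1) hD1
  obtain ⟨-, hcrV, -, hpaa, -, hb, -⟩ := hV (Y.f a) ha
  obtain ⟨-, hcr1, -⟩ := h1 a ha1
  by_cases hS : Y.f a ∈ Y.S
  · rw [Finset.prod_eq_zero hS hpaa]
    unfold PM.hdf
    positivity
  · obtain ⟨W', hDW, haW, hmap, hprod⟩ := hSTP Y δ ε₀ hOk V a hDV ha hS
    have hsub : W' ⊆ PB Y V 1 := fun z hz => hmap hz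
    have hcr := (hTIN W' (PB Y V 1) hDW hD1 hsub a haW).1
    have h2 : hdf Y.f W' V a ≤ hdf Y.f (PB Y V 1) V a := by
      unfold PM.hdf
      gcongr
    refine le_trans (le_trans ?_ hprod) h2
    apply Finset.prod_le_prod
    · intro s hs
      exact (hb s (hLv.orb s hs 0)).2.2.2.2.1
    · intro s hs
      obtain ⟨-, -, -, h3, h4, -⟩ := hb s (hLv.orb s hs 0)
      exact (hKKF.2.2.1 _ h4 h3.le).1

end CSF
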